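import Mathlib
import Pool.Agent.V11266.Renorm
import Pool.Agent.V11266.DeltaE

set_option autoImplicit false

namespace Pool.Agent.Results.MP_0f3a14_an.ExtremeDelta

open Metric Set

/-- the slice `{y in the closed unit ball of X : f y > norm f - α}` (real scalars) -/
def slice {X : Type} [NormedAddCommGroup X] [NormedSpace ℝ X] (f : X →L[ℝ] ℝ) (α : ℝ) : Set X :=
  {y | ‖y‖ ≤ 1 ∧ ‖f‖ - α < f y}

/-- `S` is a slice of the closed unit ball -/
def IsSlice {X : Type} [NormedAddCommGroup X] [NormedSpace ℝ X] (S : Set X) : Prop :=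
  ∃ (f : X →L[ℝ] ℝ) (α : ℝ), f ≠ 0 ∧ 0 < α ∧ S = slice f α

/-- convex combination of the sets `S i` with weights `lam i` -/
def convComb {X : Type} [NormedAddCommGroup X] [NormedSpace ℝ X] {n : ℕ}
    (lam : Fin n → ℝ) (S : Fin n → Set X) : Set X :=
  {z | ∃ y : Fin n → X, (∀ i, y i ∈ S i) ∧ z = ∑ i, lam i • y i}

/-- `C` is a convex combination of slices -/
def IsCcs {X : Type} [NormedAddCommGroup X] [NormedSpace ℝ X] (C : Set X) : Prop :=
  ∃ (n : ℕ) (lam : Fin n → ℝ) (S : Fin n → Set X), (∀ i, IsSlice (S i)) ∧ (∀ i, 0 < lam i) ∧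
    ∑ i, lam i = 1 ∧ C = convComb lam S

/-- `W` is a relatively weakly open subset of the closed unit ball -/
def IsRelWeakOpen {X : Type} [NormedAddCommGroup X] [NormedSpace ℝ X] (W : Set X) : Prop :=
  ∃ U : Set (WeakSpace ℝ X), IsOpen U ∧ W = {y | ‖y‖ ≤ 1 ∧ toWeakSpace ℝ X y ∈ U}

/-- Delta-point: norm one and `sup_{y in S} norm (x - y) = 2` for all slices `S` containing `x` -/
def IsDeltaPoint {X : Type} [NormedAddCommGroup X] [NormedSpace ℝ X] (x : X) : Prop :=
  ‖x‖ = 1 ∧ ∀ S : Set X, IsSlice S → x ∈ S → sSup ((fun y => ‖x - y‖) '' S) = 2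

/-- super Delta-point -/
def IsSuperDeltaPoint {X : Type} [NormedAddCommGroup X] [NormedSpace ℝ X] (x : X) : Prop :=
  ‖x‖ = 1 ∧ ∀ W : Set X, IsRelWeakOpen W → x ∈ W → sSup ((fun y => ‖x - y‖) '' W) = 2

/-- ccs Delta-point -/
def IsCcsDeltaPoint {X : Type} [NormedAddCommGroup X] [NormedSpace ℝ X] (x : X) : Prop :=
  ‖x‖ = 1 ∧ ∀ C : Set X, IsCcs C → x ∈ C → sSup ((fun y => ‖x - y‖) '' C) = 2

open Pool.Agent.V11266 Pool.Agent.V11266.DeltaE in
/-- There is a real Banach space with an extreme point `x` of its unit ball which is a Delta-point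
but neither a ccs Delta-point nor a super Delta-point. -/
theorem result : ∃ (X : Type) (_ : NormedAddCommGroup X) (_ : NormedSpace ℝ X)
    (_ : CompleteSpace X) (x : X), x ∈ (closedBall (0 : X) 1).extremePoints ℝ ∧
      IsDeltaPoint x ∧ ¬ IsCcsDeltaPoint x ∧ ¬ IsSuperDeltaPoint x := by
  obtain ⟨X, i1, i2, i3, e, he⟩ := Renorm.exists_renorm DeltaE.B
  refine ⟨X, i1, i2, i3, e.symm x0, ?_⟩
  have hex : e (e.symm x0) = x0 := e.apply_symm_apply x0
  set x : X := e.symm x0 with hx
  -- transfer of bounds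
  have tr : ∀ φ : E →L[ℝ] ℝ, (∀ v ∈ B.carrier, φ v ≤ 1) → ∀ w : X, φ (e w) ≤ ‖w‖ := by
    intro φ hφ w
    by_cases hw : w = 0
    · subst hw; simp
    · have hpos : 0 < ‖w‖ := norm_pos_iff.mpr hw
      have h1 : ‖(‖w‖⁻¹) • w‖ ≤ 1 := by
        rw [norm_smul, norm_inv, norm_norm, inv_mul_cancel₀ hpos.ne']
      have h2 := hφ _ ((he _).mp h1)
      rw [map_smul, map_smul, smul_eq_mul] at h2
      rw [inv_mul_le_iff₀ hpos] at h2
      linarith
  have hxB : ‖x‖ ≤ 1 := by
    rw [he, hex]; exact mem_B (Or.inl rfl)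
  have hx1 : ‖x‖ = 1 := by
    refine le_antisymm hxB ?_
    have := tr X0 X0_le x
    rwa [hex, X0_x0] at this
  have hyB : ∀ k, ‖e.symm (y k)‖ ≤ 1 := by
    intro k
    rw [he, e.apply_symm_apply]; exact mem_B (Or.inr (Or.inr (Or.inl ⟨k, rfl⟩)))
  have hdist : ∀ k, ‖x - e.symm (y k)‖ = 2 := by
    intro k
    refine le_antisymm ((norm_sub_le _ _).trans (by linarith [hyB k])) ?_
    have h := tr (g k) (g_le k) (x - e.symm (y k))
    rw [map_sub, hex, e.apply_symm_apply, map_sub] at h
    have h1 : g k x0 = 1 := by simp [g, X0_x0, c2_x0]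
    have h2 : g k (y k) = -1 := by
      simp only [g, add_apply, X0_y, c2_y]; norm_num
    rw [h1, h2] at h
    linarith
  -- upper bound for the sup
  have hub : ∀ S : Set X, (∀ w ∈ S, ‖w‖ ≤ 1) → ∀ a ∈ (fun w => ‖x - w‖) '' S, a ≤ 2 := by
    rintro S hS _ ⟨w, hw, rfl⟩
    exact (norm_sub_le _ _).trans (by linarith [hS w hw])
  have hext : x ∈ (closedBall (0 : X) 1).extremePoints ℝ := by
    have step : ∀ p q : X, ‖p‖ ≤ 1 → ‖q‖ ≤ 1 → x ∈ openSegment ℝ p q → p = x := by
      intro p q hp hq hseg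
      obtain ⟨a, b, ha, hb, hab, hpq⟩ := hseg
      have hc : ∀ φ : E →L[ℝ] ℝ, (∀ v ∈ B.carrier, φ v ≤ 1) → φ x0 = 1 → φ (e p) = 1 := by
        intro φ hφ h1
        have hp1 := hφ _ ((he p).mp hp)
        have hq1 := hφ _ ((he q).mp hq)
        have h2 : a * φ (e p) + b * φ (e q) = 1 := by
          have h3 := congrArg (fun w => φ (e w)) hpq
          simp only [map_add, map_smul, smul_eq_mul, hex, h1] at h3
          exact h3
        have h4 : b * φ (e q) ≤ b := by nlinarith
        have h5 : a * 1 ≤ a * φ (e p) := by linarith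
        exact le_antisymm hp1 (le_of_mul_le_mul_left h5 ha)
      have h0 := hc X0 X0_le X0_x0
      have hk : ∀ k, c2 k (e p) = 0 := by
        intro k
        have h1 := hc (g k) (g_le k) (by simp [g, X0_x0, c2_x0])
        simp only [g, add_apply] at h1
        linarith
      have h6 := ext_core ((he p).mp hp) h0 hk
      rw [← e.symm_apply_apply p, h6]
    rw [mem_extremePoints]
    refine ⟨by simpa using hxB, ?_⟩
    intro p hp q hq hseg
    have hp' : ‖p‖ ≤ 1 := by simpa using hp
    have hq' : ‖q‖ ≤ 1 := by simpa using hq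
    exact ⟨step p q hp' hq' hseg, step q p hq' hp' (by rwa [openSegment_symm])⟩
  have hdelta : IsDeltaPoint x := by
    refine ⟨hx1, ?_⟩
    rintro S ⟨f, α, hf, hα, rfl⟩ hxS
    have hlim : Filter.Tendsto (fun N => f (e.symm (z N))) Filter.atTop (nhds (f x)) := by
      exact ((f.continuous.comp e.symm.continuous).tendsto x0).comp tendsto_z
    have hev := hlim.eventually_const_lt hxS.2
    obtain ⟨N, hN⟩ := hev.exists
    have hk : ∃ k, ‖f‖ - α < f (e.symm (y k)) := by
      by_contra hcon
      push Not at hcon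
      have hN0 : (0:ℝ) < (N:ℝ) + 1 := by positivity
      have h1 : f (e.symm (z N)) ≤ ‖f‖ - α := by
        simp only [z, map_smul, map_sum, smul_eq_mul]
        have h2 : ∑ a : Fin (N + 1) × Bool, f (e.symm (y (⟨N, a.1⟩, a.2))) ≤
            ∑ a : Fin (N + 1) × Bool, (‖f‖ - α) := Finset.sum_le_sum (fun a _ => hcon _)
        rw [Finset.sum_const, nsmul_eq_mul] at h2
        have hcard : ((Finset.univ : Finset (Fin (N + 1) × Bool)).card : ℝ) = 2 * (N + 1) := by
          simp [Fintype.card_prod]; ring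
        rw [hcard] at h2
        rw [one_div, inv_mul_le_iff₀ (by positivity)]
        exact h2
      linarith
    obtain ⟨k, hk⟩ := hk
    have hmem : (2:ℝ) ∈ (fun w => ‖x - w‖) '' slice f α :=
      ⟨e.symm (y k), ⟨hyB k, hk⟩, hdist k⟩
    have hb := hub (slice f α) (fun w hw => hw.1)
    exact le_antisymm (csSup_le ⟨2, hmem⟩ hb) (le_csSup ⟨2, hb⟩ hmem)
  -- the main estimate
  have main : ∀ p q : X, ‖p‖ ≤ 1 → ‖q‖ ≤ 1 → 7/8 < u true (e p) → 7/8 < u false (e q) →
      ‖x - ((1/2 : ℝ) • p + (1/2 : ℝ) • q)‖ ≤ 2 - 1/80 := by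
    intro p q hp hq hup huq
    by_contra hcon
    push Not at hcon
    obtain ⟨G0, hG0, hG1⟩ := exists_dual_vector'' ℝ (x - ((1/2 : ℝ) • p + (1/2 : ℝ) • q))
    have hGle : ∀ w : X, |G0 w| ≤ ‖w‖ := by
      intro w
      have := G0.le_opNorm w
      rw [Real.norm_eq_abs] at this
      nlinarith [norm_nonneg w]
    have hGx := (abs_le.mp (hGle x)).2
    have hGp := (abs_le.mp (hGle p)).1
    have hGq := (abs_le.mp (hGle q)).1
    rw [map_sub, map_add, map_smul, map_smul, smul_eq_mul, smul_eq_mul] at hG1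
    simp only [RCLike.ofReal_real_eq_id, id] at hG1
    have a1 : 1 - 1/80 < G0 x := by linarith
    have a2 : G0 p < -1 + 1/40 := by linarith
    have a3 : G0 q < -1 + 1/40 := by linarith
    let G : E →L[ℝ] ℝ := G0.comp (e.symm : E →L[ℝ] X)
    have hGe : ∀ w : X, G (e w) = G0 w := by
      intro w
      show G0 (e.symm (e w)) = G0 w
      rw [e.symm_apply_apply]
    have hGB : ∀ v ∈ B.carrier, G v ≤ 1 := by
      intro v hv
      have h1 : ‖e.symm v‖ ≤ 1 := by rw [he, e.apply_symm_apply]; exact hv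
      exact ((le_abs_self _).trans (hGle (e.symm v))).trans h1
    have hGx0 : G x0 = G0 x := rfl
    have hnorm : ∀ v : E, G v ≤ 2 * ‖v‖ := by
      intro v
      by_cases hv : v = 0
      · subst hv; simp
      · have hpos : 0 < ‖v‖ := norm_pos_iff.mpr hv
        have h1 : (1 / (2 * ‖v‖)) • v ∈ B.carrier := by
          apply mem_B
          right; right; right; right
          rw [norm_smul, Real.norm_eq_abs, abs_of_pos (by positivity)]
          field_simp
          norm_num
        have h2 := hGB _ h1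
        rw [map_smul, smul_eq_mul, one_div, inv_mul_le_iff₀ (by positivity)] at h2
        linarith
    -- at most one low index
    have huniq : ∀ j k : Idx, G (y j) < -(9/10) → G (y k) < -(9/10) → j = k := by
      intro j k hj hk
      by_contra hjk
      have h1 := hnorm ((2:ℝ) • x0 - (1/2 : ℝ) • (y j + y k))
      have h2 := norm_two j k hjk
      rw [map_sub, map_smul, map_smul, map_add, smul_eq_mul, smul_eq_mul] at h1
      have h3 : Real.sqrt 2 < 1.4375 := by
        rw [Real.sqrt_lt' (by norm_num)]; norm_num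
      rw [hGx0] at h1
      norm_num at h3
      linarith
    -- some sign is free of low indices
    have hsign : ∃ s : Bool, ∀ k : Idx, k.2 = s → -(9/10) ≤ G (y k) := by
      by_cases hlow : ∃ j : Idx, G (y j) < -(9/10)
      · obtain ⟨j, hj⟩ := hlow
        refine ⟨!j.2, fun k hk => ?_⟩
        by_contra hlt
        push Not at hlt
        have := huniq j k hj hlt
        subst this
        cases h : j.2 <;> simp_all
      · push Not at hlow
        exact ⟨true, fun k _ => hlow k⟩
    obtain ⟨s, hs⟩ := hsign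
    have hkey := key (s := s) hGB (by rw [hGx0]; linarith) hs
    cases s with
    | true =>
      have h1 := hkey _ ((he p).mp hp)
      rw [hGe] at h1
      linarith
    | false =>
      have h1 := hkey _ ((he q).mp hq)
      rw [hGe] at h1
      linarith
  let U : Bool → (X →L[ℝ] ℝ) := fun s => (u s).comp (e : X →L[ℝ] E)
  have hUapp : ∀ s w, U s w = u s (e w) := fun s w => rfl
  have hUx : ∀ s, U s x = 1 := by
    intro s
    rw [hUapp, hex, u_x0]
  have hUnorm : ∀ s, 1 ≤ ‖U s‖ := by
    intro s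
    have h1 := (U s).le_opNorm x
    rw [hUx, hx1, mul_one] at h1
    simpa using h1
  refine ⟨hext, hdelta, ?_, ?_⟩
  · rintro ⟨-, hccs⟩
    let Sl : Fin 2 → Set X := fun i => slice (U (i = 0)) (‖U (i = 0)‖ - 7/8)
    let lam : Fin 2 → ℝ := fun _ => 1/2
    have hC : IsCcs (convComb lam Sl) := by
      refine ⟨2, lam, Sl, ?_, ?_, ?_, rfl⟩
      · intro i
        refine ⟨U (i = 0), ‖U (i = 0)‖ - 7/8, ?_, ?_, rfl⟩
        · intro h0
          have h1 := hUx (i = 0)
          rw [h0] at h1
          simp at h1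
        · linarith [hUnorm (decide (i = 0))]
      · intro i; norm_num [lam]
      · simp [lam]
    have hxC : x ∈ convComb lam Sl := by
      refine ⟨fun _ => x, ?_, ?_⟩
      · intro i
        refine ⟨hxB, ?_⟩
        rw [hUx]
        linarith
      · simp only [Fin.sum_univ_two, lam]
        rw [← add_smul]
        norm_num
    have h2 := hccs _ hC hxC
    have h3 : sSup ((fun w => ‖x - w‖) '' convComb lam Sl) ≤ 2 - 1/80 := by
      apply csSup_le (Set.Nonempty.image _ ⟨x, hxC⟩)
      rintro _ ⟨w, ⟨v, hv, rfl⟩, rfl⟩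
      have hv0 := hv 0
      have hv1 := hv 1
      simp only [Fin.sum_univ_two, lam]
      apply main
      · exact hv0.1
      · exact hv1.1
      · have := hv0.2
        simp only [decide_true, sub_sub_cancel] at this
        exact this
      · have := hv1.2
        simp only [sub_sub_cancel] at this
        exact this
    rw [h2] at h3
    norm_num at h3
  · rintro ⟨-, hsup⟩
    let W : Set X := {w | ‖w‖ ≤ 1 ∧ 7/8 < U true w ∧ 7/8 < U false w}
    have hW : IsRelWeakOpen W := by
      have hcont : ∀ s, Continuous (fun w : WeakSpace ℝ X => U s ((toWeakSpace ℝ X).symm w)) := by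
        intro s
        exact WeakBilin.eval_continuous (topDualPairing ℝ X).flip (U s)
      refine ⟨{w | 7/8 < U true ((toWeakSpace ℝ X).symm w)} ∩
        {w | 7/8 < U false ((toWeakSpace ℝ X).symm w)}, ?_, ?_⟩
      · exact (isOpen_lt continuous_const (hcont true)).inter
          (isOpen_lt continuous_const (hcont false))
      · rfl
    have hxW : x ∈ W := by
      refine ⟨hxB, ?_, ?_⟩ <;> rw [hUx] <;> norm_num
    have h2 := hsup _ hW hxW
    have h3 : sSup ((fun w => ‖x - w‖) '' W) ≤ 2 - 1/80 := by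
      apply csSup_le (Set.Nonempty.image _ ⟨x, hxW⟩)
      rintro _ ⟨w, ⟨h1, ha, hb⟩, rfl⟩
      have h4 := main w w h1 h1 ha hb
      have h5 : (1/2 : ℝ) • w + (1/2 : ℝ) • w = w := by
        rw [← add_smul]; norm_num
      rw [h5] at h4
      exact h4
    rw [h2] at h3
    norm_num at h3

end Pool.Agent.Results.MP_0f3a14_an.ExtremeDelta
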